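import Mathlib

/-!
# A square table with four rows and five columns
-/

namespace Pool.Agent.Results.MP_79d058_nt.FourFive

/-- There are four pairwise distinct integers `a_i` and five pairwise distinct integers `b_j` such
that all the twenty sums `a_i + b_j` are squares of integers. -/
theorem result : ∃ (a : Fin 4 → ℤ) (b : Fin 5 → ℤ), Function.Injective a ∧
    Function.Injective b ∧ ∀ i j, IsSquare (a i + b j) := by
  refine ⟨![0, 1496880, -1198800, 21070720],
    ![5604 ^ 2, 2148 ^ 2, 1572 ^ 2, 1233 ^ 2, 1116 ^ 2], ?_, ?_, ?_⟩
  · intro i j h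
    fin_cases i <;> fin_cases j <;> first | rfl | (exfalso; norm_num at h)
  · intro i j h
    fin_cases i <;> fin_cases j <;> first | rfl | (exfalso; norm_num at h)
  · intro i j
    fin_cases i <;> fin_cases j <;> decide +kernel

end Pool.Agent.Results.MP_79d058_nt.FourFive
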