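import Mathlib

/-!
# Square tables with three rows exist for every number of columns

`a = (-6 D², 0, 6 D²)`, `b_j = (s_j D)²`, where `(s_j² - 6, s_j², s_j² + 6)` are rational squares:
the `s_j` are obtained by repeated doubling on the elliptic curve `Y² = X³ - 36 X` and are
distinguished by their 2-adic valuation `-j`; `D` is a common denominator.
-/

namespace Pool.Agent.Results.MP_79d058_nt.ThreeRows

/-- the rational squares `s² - 6, s², s² + 6`, with `v₂(s) = -(k+1)` -/
lemma chain (k : ℕ) : ∃ r s t : ℚ, r ^ 2 = s ^ 2 - 6 ∧ t ^ 2 = s ^ 2 + 6 ∧ r ≠ 0 ∧ s ≠ 0 ∧ t ≠ 0 ∧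
    padicValRat 2 r = -(k + 1 : ℤ) ∧ padicValRat 2 s = -(k + 1 : ℤ) ∧
    padicValRat 2 t = -(k + 1 : ℤ) := by
  have : Fact (Nat.Prime 2) := ⟨Nat.prime_two⟩
  have v2 : padicValRat 2 (2 : ℚ) = 1 := by
    have := padicValRat.self (p := 2) (by norm_num)
    simpa using this
  have vodd : ∀ n : ℕ, ¬ 2 ∣ n → padicValRat 2 (n : ℚ) = 0 := by
    intro n hn
    rw [padicValRat.of_nat, padicValNat.eq_zero_of_not_dvd hn]
    rfl
  have v6 : padicValRat 2 (6 : ℚ) = 1 := by
    rw [show (6 : ℚ) = 2 * ((3 : ℕ) : ℚ) by norm_num,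
      padicValRat.mul (by norm_num) (by norm_num), v2, vodd 3 (by norm_num)]
    norm_num
  -- the valuation of `s² ± 6` when `v(s) ≤ -1`
  have vadd : ∀ s c x : ℚ, s ≠ 0 → padicValRat 2 s ≤ -1 → (c = 6 ∨ c = -6) → x ^ 2 = s ^ 2 + c →
      x ≠ 0 → padicValRat 2 x = padicValRat 2 s := by
    intro s c x hs hv hc hx hx0
    have hc0 : c ≠ 0 := by rcases hc with rfl | rfl <;> norm_num
    have hvc : padicValRat 2 c = 1 := by
      rcases hc with rfl | rfl
      · exact v6
      · rw [padicValRat.neg]; exact v6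
    have h1 : padicValRat 2 (s ^ 2) = 2 * padicValRat 2 s := by
      rw [padicValRat.pow]; norm_num
    have h2 : padicValRat 2 (x ^ 2) = 2 * padicValRat 2 x := by
      rw [padicValRat.pow]; norm_num
    have h3 : s ^ 2 + c ≠ 0 := by rw [← hx]; exact pow_ne_zero _ hx0
    have h4 : padicValRat 2 (s ^ 2 + c) = padicValRat 2 (s ^ 2) := by
      apply padicValRat.add_eq_of_lt h3 (pow_ne_zero _ hs) hc0
      rw [h1, hvc]; linarith
    rw [← hx, h2, h1] at h4
    linarith
  induction k with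
  | zero =>
    refine ⟨1 / 2, 5 / 2, 7 / 2, by norm_num, by norm_num, by norm_num, by norm_num, by norm_num,
      ?_, ?_, ?_⟩
    · rw [padicValRat.div (by norm_num) (by norm_num), v2, padicValRat.one]; norm_num
    · rw [padicValRat.div (by norm_num) (by norm_num), v2,
        show (5 : ℚ) = ((5 : ℕ) : ℚ) by norm_num, vodd 5 (by norm_num)]; norm_num
    · rw [padicValRat.div (by norm_num) (by norm_num), v2,
        show (7 : ℚ) = ((7 : ℕ) : ℚ) by norm_num, vodd 7 (by norm_num)]; norm_num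
  | succ k ih =>
    obtain ⟨r, s, t, hr, ht, hr0, hs0, ht0, vr, vs, vt⟩ := ih
    -- the new `s`
    have hS : (s ^ 4 + 36) / (2 * r * s * t) ≠ 0 := by
      apply div_ne_zero (by positivity)
      exact mul_ne_zero (mul_ne_zero (mul_ne_zero two_ne_zero hr0) hs0) ht0
    have hden : (2 * r * s * t) ≠ 0 :=
      mul_ne_zero (mul_ne_zero (mul_ne_zero two_ne_zero hr0) hs0) ht0
    have hk0 : (0 : ℤ) ≤ (k : ℤ) := Int.natCast_nonneg k
    have vs4 : padicValRat 2 (s ^ 4) = -4 * (k + 1 : ℤ) := by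
      rw [padicValRat.pow, vs]; push_cast; ring
    have v36 : padicValRat 2 (36 : ℚ) = 2 := by
      rw [show (36 : ℚ) = 6 ^ 2 by norm_num, padicValRat.pow, v6]; norm_num
    have vnum : padicValRat 2 (s ^ 4 + 36) = -4 * (k + 1 : ℤ) := by
      rw [padicValRat.add_eq_of_lt (by positivity) (pow_ne_zero _ hs0) (by norm_num), vs4]
      rw [vs4, v36]; linarith
    have vden : padicValRat 2 (2 * r * s * t) = 1 - 3 * (k + 1 : ℤ) := by
      rw [padicValRat.mul (mul_ne_zero (mul_ne_zero two_ne_zero hr0) hs0) ht0,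
        padicValRat.mul (mul_ne_zero two_ne_zero hr0) hs0, padicValRat.mul two_ne_zero hr0,
        v2, vr, vs, vt]
      ring
    have vS : padicValRat 2 ((s ^ 4 + 36) / (2 * r * s * t)) = -(((k + 1 : ℕ) : ℤ) + 1) := by
      rw [padicValRat.div (by positivity) hden, vnum, vden]; push_cast; ring
    have e : r ^ 2 * t ^ 2 = s ^ 4 - 36 := by rw [hr, ht]; ring
    have hR : ((s ^ 4 - 12 * s ^ 2 - 36) / (2 * r * s * t)) ^ 2 =
        ((s ^ 4 + 36) / (2 * r * s * t)) ^ 2 + -6 := by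
      rw [div_pow, div_pow, div_add' _ _ _ (pow_ne_zero _ hden)]
      congr 1
      have : (2 * r * s * t) ^ 2 = 4 * s ^ 2 * (r ^ 2 * t ^ 2) := by ring
      rw [this, e]; ring
    have hT : ((s ^ 4 + 12 * s ^ 2 - 36) / (2 * r * s * t)) ^ 2 =
        ((s ^ 4 + 36) / (2 * r * s * t)) ^ 2 + 6 := by
      rw [div_pow, div_pow, div_add' _ _ _ (pow_ne_zero _ hden)]
      congr 1
      have : (2 * r * s * t) ^ 2 = 4 * s ^ 2 * (r ^ 2 * t ^ 2) := by ring
      rw [this, e]; ring
    have irr : ∀ x y c : ℚ, x ^ 2 = y ^ 2 + c → padicValRat 2 y ≤ -1 → y ≠ 0 →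
        (c = 6 ∨ c = -6) → x ≠ 0 := by
      rintro x y c hx hv hy hc rfl
      have h1 : y ^ 2 = -c := by linear_combination -hx
      have h2 : padicValRat 2 (y ^ 2) = 1 := by
        rw [h1, padicValRat.neg]
        rcases hc with rfl | rfl
        · exact v6
        · rw [padicValRat.neg]; exact v6
      rw [padicValRat.pow] at h2
      push_cast at h2
      omega
    have hvS1 : padicValRat 2 ((s ^ 4 + 36) / (2 * r * s * t)) ≤ -1 := by
      rw [vS]; push_cast; linarith
    have hR0 := irr _ _ _ hR hvS1 hS (Or.inr rfl)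
    have hT0 := irr _ _ _ hT hvS1 hS (Or.inl rfl)
    refine ⟨_, _, _, hR.trans (by ring), hT, hR0, hS, hT0, ?_, vS, ?_⟩
    · rw [vadd _ _ _ hS hvS1 (Or.inr rfl) hR hR0, vS]
    · rw [vadd _ _ _ hS hvS1 (Or.inl rfl) hT hT0, vS]

/-- For every `n` there are integers `a₁, a₂, a₃` pairwise distinct and `b₁, …, b_n` pairwise
distinct such that all the sums `a_i + b_j` are squares of integers. -/
theorem result (n : ℕ) : ∃ (a : Fin 3 → ℤ) (b : Fin n → ℤ), Function.Injective a ∧
    Function.Injective b ∧ ∀ i j, IsSquare (a i + b j) := by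
  choose r s t hr ht _ hs0 _ _ vs _ using chain
  -- a common denominator
  obtain ⟨D, hD0, hD⟩ : ∃ D : ℤ, D ≠ 0 ∧ ∀ j : Fin n, ∃ x y z : ℤ,
      (x : ℚ) = r j * D ∧ (y : ℚ) = s j * D ∧ (z : ℚ) = t j * D := by
    refine ⟨∏ j : Fin n, ((r j).den * (s j).den * (t j).den : ℤ), ?_, ?_⟩
    · apply Finset.prod_ne_zero_iff.2
      intro j _
      have := (r j).den_nz
      have := (s j).den_nz
      have := (t j).den_nz
      positivity
    · intro j
      have key : ∀ q : ℚ, (q.den : ℤ) ∣ ∏ j : Fin n, ((r j).den * (s j).den * (t j).den : ℤ) →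
          ∃ x : ℤ, (x : ℚ) = q * ((∏ j : Fin n, ((r j).den * (s j).den * (t j).den : ℤ) : ℤ) : ℚ) := by
        rintro q ⟨c, hc⟩
        refine ⟨q.num * c, ?_⟩
        rw [hc]
        push_cast
        have := Rat.mul_den_eq_num q
        rw [← mul_assoc, this]
      have hdvd : ((r j).den * (s j).den * (t j).den : ℤ) ∣
          ∏ j : Fin n, ((r j).den * (s j).den * (t j).den : ℤ) :=
        Finset.dvd_prod_of_mem (fun j : Fin n => ((r j).den * (s j).den * (t j).den : ℤ))
          (Finset.mem_univ j)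
      obtain ⟨x, hx⟩ := key (r j)
        ((Dvd.intro ((s j).den * (t j).den : ℤ) (by ring)).trans hdvd)
      obtain ⟨y, hy⟩ := key (s j) ((Dvd.intro ((r j).den * (t j).den : ℤ) (by ring)).trans hdvd)
      obtain ⟨z, hz⟩ := key (t j) ((Dvd.intro_left _ rfl).trans hdvd)
      exact ⟨x, y, z, hx, hy, hz⟩
  choose x y z hx hy hz using hD
  have hDq : (D : ℚ) ≠ 0 := by exact_mod_cast hD0
  have hD2 : 0 < D ^ 2 := by positivity
  refine ⟨![-6 * D ^ 2, 0, 6 * D ^ 2], fun j => y j ^ 2, ?_, ?_, ?_⟩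
  · intro i j h
    fin_cases i <;> fin_cases j <;> first | rfl | (exfalso; simp at h; nlinarith)
  · intro i j h
    simp only at h
    have h1 : (s i) ^ 2 = (s j) ^ 2 := by
      have : ((y i : ℚ)) ^ 2 = (y j : ℚ) ^ 2 := by exact_mod_cast h
      rw [hy, hy, mul_pow, mul_pow] at this
      exact mul_right_cancel₀ (pow_ne_zero 2 hDq) this
    have h2 : padicValRat 2 ((s i) ^ 2) = padicValRat 2 ((s j) ^ 2) := by rw [h1]
    have : Fact (Nat.Prime 2) := ⟨Nat.prime_two⟩
    rw [padicValRat.pow, padicValRat.pow, vs, vs] at h2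
    push_cast at h2
    exact Fin.ext (by omega)
  · intro i j
    fin_cases i
    · refine ⟨x j, ?_⟩
      have : ((-6 * D ^ 2 + y j ^ 2 : ℤ) : ℚ) = ((x j * x j : ℤ) : ℚ) := by
        push_cast
        rw [hx, hy]
        linear_combination (-(D : ℚ) ^ 2) * hr j
      simpa using (by exact_mod_cast this : (-6 * D ^ 2 + y j ^ 2 : ℤ) = x j * x j)
    · exact ⟨y j, by simp [sq]⟩
    · refine ⟨z j, ?_⟩
      have : ((6 * D ^ 2 + y j ^ 2 : ℤ) : ℚ) = ((z j * z j : ℤ) : ℚ) := by
        push_cast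
        rw [hz, hy]
        linear_combination (-(D : ℚ) ^ 2) * ht j
      simpa using (by exact_mod_cast this : (6 * D ^ 2 + y j ^ 2 : ℤ) = z j * z j)

end Pool.Agent.Results.MP_79d058_nt.ThreeRows
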